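import Pool.Agent.Helper16.HR.Stmts

set_option autoImplicit false

namespace Pool.Helper16.HR

open Finset

theorem clm_num1 (a b x y : ℝ) (q2 e : ℕ) (he : e ≤ q2) (_ha : 0 ≤ a) (hb : 0 ≤ b) (hx : 1 ≤ x)
    (hy : 1 ≤ y) (hyx : y ≤ x) (h : a * x ^ q2 ≤ b * y ^ q2) : a * x ^ e ≤ b * y ^ e := by
  obtain ⟨m, rfl⟩ := Nat.exists_eq_add_of_le he
  have hxm : 0 < x ^ m := by positivity
  have h1 : y ^ m ≤ x ^ m := pow_le_pow_left₀ (by linarith) hyx m
  have h2 : b * y ^ e * y ^ m ≤ b * y ^ e * x ^ m :=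
    mul_le_mul_of_nonneg_left h1 (by positivity)
  have h3 : a * x ^ e * x ^ m ≤ b * y ^ e * x ^ m := by
    rw [pow_add, pow_add, ← mul_assoc, ← mul_assoc] at h
    exact h.trans h2
  exact le_of_mul_le_mul_right h3 hxm

theorem clm_num2 (g g' η B B' B0 : ℝ) (q n : ℕ) (hg : 0 ≤ g) (hg' : 0 ≤ g') (hη : 0 ≤ η)
    (hB : 1 ≤ B) (hB' : 1 ≤ B') (hB0 : 1 ≤ B0) (hB'0 : B' ≤ B0)
    (h : g' * B' ^ ((n + 1) * q) ≤ g * B ^ ((n + 1) * q)) :
    (2 ^ (n + 1) - 2) * (g * B ^ (n * q) + η * B0 ^ (n * q + q)) +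
      (2 * g' + (2 ^ (n + 1) - 2) * (g' * B' ^ (n * q) + η * B0 ^ (n * q + q))) * B' ^ q +
      η * B0 ^ q ≤
      (2 ^ (n + 2) - 2) * (g * B ^ ((n + 1) * q) + η * B0 ^ ((n + 1) * q + q)) := by
  obtain ⟨a, ha⟩ : ∃ a : ℝ, a = 2 ^ (n + 1) - 2 := ⟨_, rfl⟩
  have ha0 : 0 ≤ a := by
    have : (1 : ℝ) ≤ 2 ^ n := one_le_pow₀ (by norm_num)
    rw [ha, pow_succ]
    linarith
  have ha2 : (2 : ℝ) ^ (n + 2) - 2 = 2 * a + 2 := by rw [ha]; ring
  rw [ha2, ← ha]
  obtain ⟨X, hX⟩ : ∃ X : ℝ, X = g * B ^ ((n + 1) * q) := ⟨_, rfl⟩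
  obtain ⟨Y, hY⟩ : ∃ Y : ℝ, Y = η * B0 ^ ((n + 1) * q + q) := ⟨_, rfl⟩
  rw [← hX, ← hY]
  rw [← hX] at h
  have e1 : g * B ^ (n * q) ≤ X := by
    rw [hX]
    exact mul_le_mul_of_nonneg_left (pow_le_pow_right₀ hB (by nlinarith)) hg
  have e2 : η * B0 ^ (n * q + q) ≤ Y := by
    rw [hY]
    exact mul_le_mul_of_nonneg_left (pow_le_pow_right₀ hB0 (by nlinarith)) hη
  have e3 : g' * B' ^ q ≤ X := by
    refine le_trans ?_ h
    exact mul_le_mul_of_nonneg_left (pow_le_pow_right₀ hB' (by nlinarith)) hg'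
  have e4 : g' * B' ^ (n * q) * B' ^ q ≤ X := by
    refine le_trans (le_of_eq ?_) h
    rw [mul_assoc, ← pow_add]
    congr 2
    ring
  have e5 : η * B0 ^ (n * q + q) * B' ^ q ≤ Y := by
    have : B' ^ q ≤ B0 ^ q := pow_le_pow_left₀ (by linarith) hB'0 q
    calc η * B0 ^ (n * q + q) * B' ^ q ≤ η * B0 ^ (n * q + q) * B0 ^ q :=
          mul_le_mul_of_nonneg_left this (by positivity)
      _ = Y := by
          rw [hY, mul_assoc, ← pow_add]
          congr 2
          ring
  have e6 : η * B0 ^ q ≤ Y := by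
    rw [hY]
    exact mul_le_mul_of_nonneg_left (pow_le_pow_right₀ hB0 (by nlinarith)) hη
  have hX0 : 0 ≤ X := by rw [hX]; positivity
  have hY0 : 0 ≤ Y := by rw [hY]; positivity
  have f1 : a * (g * B ^ (n * q) + η * B0 ^ (n * q + q)) ≤ a * (X + Y) :=
    mul_le_mul_of_nonneg_left (by linarith) ha0
  have f2 : a * (g' * B' ^ (n * q) * B' ^ q + η * B0 ^ (n * q + q) * B' ^ q) ≤ a * (X + Y) :=
    mul_le_mul_of_nonneg_left (by linarith) ha0
  have f3 : (2 * g' + a * (g' * B' ^ (n * q) + η * B0 ^ (n * q + q))) * B' ^ q =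
      2 * (g' * B' ^ q) +
        a * (g' * B' ^ (n * q) * B' ^ q + η * B0 ^ (n * q + q) * B' ^ q) := by ring
  rw [f3]
  nlinarith

theorem clm_prod {I : Type} [DecidableEq I] (L A B : Finset (Finset I)) (d : Finset I → ℝ)
    (t : ℝ) (ht : 0 < t) (ht1 : t ≤ 1) (hB : B ⊆ L) (hAB : A ⊆ B) (hd : ∀ T ∈ L, 0 < d T)
    (h : ∀ T ∈ B, T ∉ A → t ≤ d T) :
    ∏ T ∈ A, d T ≤ (1 / t) ^ L.card * ∏ T ∈ B, d T := by
  have h1 : t ^ L.card ≤ ∏ T ∈ B \ A, d T := by
    calc t ^ L.card ≤ t ^ (B \ A).card :=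
          pow_le_pow_of_le_one ht.le ht1 (card_le_card (sdiff_subset.trans hB))
      _ = ∏ _T ∈ B \ A, t := by rw [prod_const]
      _ ≤ ∏ T ∈ B \ A, d T := prod_le_prod (fun _ _ => ht.le) (fun T hT => by
          rw [mem_sdiff] at hT
          exact h T hT.1 hT.2)
  have h2 : 0 ≤ ∏ T ∈ A, d T := prod_nonneg fun T hT => (hd T (hB (hAB hT))).le
  rw [← prod_sdiff hAB]
  calc ∏ T ∈ A, d T = (1 / t) ^ L.card * (t ^ L.card * ∏ T ∈ A, d T) := by
        rw [← mul_assoc, ← mul_pow, one_div_mul_cancel ht.ne', one_pow, one_mul]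
    _ ≤ _ := mul_le_mul_of_nonneg_left (mul_le_mul_of_nonneg_right h1 h2) (by positivity)

theorem clm_sub {I : Type} [DecidableEq I] (A B : Finset (Finset I)) (f : Finset I → ℝ)
    (hAB : A ⊆ B) (h0 : ∀ T, 0 ≤ f T) (h1 : ∀ T, f T ≤ 1) :
    ∏ T ∈ B, f T ≤ ∏ T ∈ A, f T := by
  rw [← prod_sdiff hAB]
  calc (∏ T ∈ B \ A, f T) * ∏ T ∈ A, f T ≤ 1 * ∏ T ∈ A, f T :=
        mul_le_mul_of_nonneg_right (prod_le_one (fun T _ => h0 T) (fun T _ => h1 T))
          (prod_nonneg fun T _ => h0 T)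
    _ = _ := one_mul _

theorem st_CLM (h1 : ST_CU) : ST_CLM := by
  intro I V _ _ _ _ L rk hL c hc x0 D d δ γ η hD hd hd0 hδ hδm hγm hη hDc hDisc hsmall
  obtain ⟨q, hq⟩ : ∃ q, q = L.card := ⟨_, rfl⟩
  rw [← hq] at hγm hsmall
  have hχ0 : ∀ T x, 0 ≤ ind c T (c T x0) x := fun T x => ind_nonneg _ _
  have hχ1 : ∀ T x, ind c T (c T x0) x ≤ 1 := fun T x => ind_le_one _ _
  obtain ⟨κ, hκ⟩ : ∃ κ : ℕ → ℕ → ℝ, ∀ n r, κ n r =
    (2 ^ (n + 1) - 2) * (γ r * (1 / δ r) ^ (n * q) + η * (1 / δ 0) ^ (n * q + q)) :=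
    ⟨_, fun _ _ => rfl⟩
  have hB : ∀ r, 1 ≤ 1 / δ r := fun r => one_le_one_div (hδ r).1 (hδ r).2.1
  have hBm : ∀ r s, r ≤ s → 1 / δ s ≤ 1 / δ r := fun r s h =>
    one_div_le_one_div_of_le (hδ r).1 (hδm r s h)
  have hγ0 : ∀ r, 0 ≤ γ r := fun r => (hδ r).2.2
  have hpow : ∀ n : ℕ, (0 : ℝ) ≤ 2 ^ (n + 1) - 2 := by
    intro n
    have : (1 : ℝ) ≤ 2 ^ n := one_le_pow₀ (by norm_num)
    rw [pow_succ]
    linarith
  have hB0 : ∀ r, 0 < 1 / δ r := fun r => lt_of_lt_of_le one_pos (hB r)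
  have hκ0 : ∀ n r, 0 ≤ κ n r := by
    intro n r
    rw [hκ]
    exact mul_nonneg (hpow n) (add_nonneg (mul_nonneg (hγ0 r) (pow_nonneg (hB0 r).le _))
      (mul_nonneg hη (pow_nonneg (hB0 0).le _)))
  have hκ1 : ∀ n r, n ≤ q → κ n r ≤ 1 / 2 := by
    intro n r hn
    rw [hκ]
    refine le_trans ?_ (hsmall r)
    have hnq : n * q ≤ q ^ 2 := by nlinarith
    have i1 : γ r * (1 / δ r) ^ (n * q) ≤ γ r * (1 / δ r) ^ (q ^ 2) :=
      mul_le_mul_of_nonneg_left (pow_le_pow_right₀ (hB r) hnq) (hγ0 r)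
    have i2 : η * (1 / δ 0) ^ (n * q + q) ≤ η * (1 / δ 0) ^ (q ^ 2 + q) :=
      mul_le_mul_of_nonneg_left (pow_le_pow_right₀ (hB 0) (by omega)) hη
    have i3 : (2 : ℝ) ^ (n + 1) - 2 ≤ 2 ^ (q + 1) := by
      have : (2 : ℝ) ^ (n + 1) ≤ 2 ^ (q + 1) := pow_le_pow_right₀ (by norm_num) (by omega)
      linarith
    exact mul_le_mul i3 (add_le_add i1 i2) (add_nonneg (mul_nonneg (hγ0 r)
      (pow_nonneg (hB0 r).le _)) (mul_nonneg hη (pow_nonneg (hB0 0).le _))) (by positivity)
  have hdpos : ∀ T ∈ L, 0 < d T := fun T hT => lt_of_lt_of_le (hδ _).1 (hd T hT).1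
  have P : ∀ n, n ≤ q → ∀ W : Finset (Finset I), W ⊆ L → W.card ≤ n →
      (∀ T ∈ W, ∀ U ∈ L, U ⊂ T → U ∈ W) → ∀ S ∈ L, ∀ r : ℕ,
      (∀ T ∈ W, ¬ T ⊆ S → rk T ≤ r) → ∀ g : (I → V) → ℝ, Dep S g →
      (∀ x, 0 ≤ g x ∧ g x ≤ 1) →
      |av (fun x => g x * ∏ T ∈ W, ind c T (c T x0) x) -
        (∏ T ∈ W.filter (fun T => ¬ T ⊆ S), d T) *
          av (fun x => g x * ∏ T ∈ W.filter (fun T => T ⊆ S), ind c T (c T x0) x)| ≤
        κ n r * ∏ T ∈ W.filter (fun T => rk T ≤ r), d T := by
    have hall' : ∀ n r (W : Finset (Finset I)), W ⊆ L → ∀ (S : Finset I) (g : (I → V) → ℝ),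
        (∀ T ∈ W, T ⊆ S) →
        |av (fun x => g x * ∏ T ∈ W, ind c T (c T x0) x) -
          (∏ T ∈ W.filter (fun T => ¬ T ⊆ S), d T) *
            av (fun x => g x * ∏ T ∈ W.filter (fun T => T ⊆ S), ind c T (c T x0) x)| ≤
          κ n r * ∏ T ∈ W.filter (fun T => rk T ≤ r), d T := by
      intro n r W hW S g hall
      rw [filter_true_of_mem hall, filter_false_of_mem (fun T hT h => h (hall T hT)),
        prod_empty, one_mul, sub_self, abs_zero]
      exact mul_nonneg (hκ0 _ _) (prod_nonneg fun T hT => (hdpos T (hW (mem_filter.1 hT).1)).le)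
    intro n
    induction n with
    | zero =>
      intro _ W hW hcard _ S _ r _ g _ _
      refine hall' 0 r W hW S g ?_
      have : W = ∅ := card_eq_zero.1 (by omega)
      rw [this]
      intro T hT
      exact absurd hT (notMem_empty T)
    | succ n ih =>
      intro hn W hW hcard hdown S hS r hr g hg hg01
      by_cases hall : ∀ T ∈ W, T ⊆ S
      · exact hall' _ r W hW S g hall
      · push Not at hall
        obtain ⟨T, hT, hTmax⟩ := exists_max_image (W.filter (fun T => ¬ T ⊆ S)) rk (by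
          obtain ⟨T, h1, h2⟩ := hall
          exact ⟨T, mem_filter.2 ⟨h1, h2⟩⟩)
        rw [mem_filter] at hT
        obtain ⟨hTW, hTS⟩ := hT
        have hTL := hW hTW
        have hTr : rk T ≤ r := hr T hTW hTS
        have htop : ∀ T' ∈ W, T ⊂ T' → False := by
          intro T' hT' hlt
          have h1 := hL.mono T hTL T' (hW hT') hlt
          have h2 := hTmax T' (mem_filter.2 ⟨hT', fun h => hTS (hlt.1.trans h)⟩)
          omega
        obtain ⟨W', hW'⟩ : ∃ W', W' = W.erase T := ⟨_, rfl⟩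
        have hmemW' : ∀ T', T' ∈ W' ↔ T' ≠ T ∧ T' ∈ W := by
          intro T'
          rw [hW', mem_erase]
        have hW'L : W' ⊆ L := fun T' hT' => hW ((hmemW' T').1 hT').2
        have hW'c : W'.card ≤ n := by
          rw [hW', card_erase_of_mem hTW]
          omega
        have hW'd : ∀ T' ∈ W', ∀ U ∈ L, U ⊂ T' → U ∈ W' := by
          intro T' hT' U hU hUT
          have hT'W := ((hmemW' T').1 hT').2
          refine (hmemW' U).2 ⟨?_, hdown T' hT'W U hU hUT⟩
          rintro rfl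
          exact htop T' hT'W hUT
        -- (1)
        have e1 := ih (by omega) W' hW'L hW'c hW'd S hS r
          (fun T' h => hr T' ((hmemW' T').1 h).2) g hg hg01
        have hf1 : ∏ T' ∈ W.filter (fun T => ¬ T ⊆ S), d T' =
            d T * ∏ T' ∈ W'.filter (fun T => ¬ T ⊆ S), d T' := by
          rw [prod_filter, prod_filter, ← mul_prod_erase W _ hTW, if_pos hTS, hW']
        have hf2 : ∀ x, ∏ T' ∈ W.filter (fun T => T ⊆ S), ind c T' (c T' x0) x =
            ∏ T' ∈ W'.filter (fun T => T ⊆ S), ind c T' (c T' x0) x := by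
          intro x
          rw [prod_filter, prod_filter, ← mul_prod_erase W _ hTW, if_neg hTS, one_mul, hW']
        have hf3 : ∏ T' ∈ W.filter (fun T => rk T ≤ r), d T' =
            d T * ∏ T' ∈ W'.filter (fun T => rk T ≤ r), d T' := by
          rw [prod_filter, prod_filter, ← mul_prod_erase W _ hTW, if_pos hTr, hW']
        have hf4 : ∀ x, ∏ T' ∈ W, ind c T' (c T' x0) x =
            ind c T (c T x0) x * ∏ T' ∈ W', ind c T' (c T' x0) x := by
          intro x
          rw [← mul_prod_erase W _ hTW, hW']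
        obtain ⟨Pi, hPi⟩ : ∃ Pi, Pi = ∏ T' ∈ W.filter (fun T => rk T ≤ r), d T' := ⟨_, rfl⟩
        have hPi0 : 0 ≤ Pi := by
          rw [hPi]
          exact prod_nonneg fun T hT => (hdpos T (hW (mem_filter.1 hT).1)).le
        have hdec : av (fun x => g x * ∏ T' ∈ W, ind c T' (c T' x0) x) =
            d T * av (fun x => g x * ∏ T' ∈ W', ind c T' (c T' x0) x) +
            av (fun x => (D T x - d T) * (g x * ∏ T' ∈ W', ind c T' (c T' x0) x)) +
            av (fun x => (ind c T (c T x0) x - D T x) *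
              (g x * ∏ T' ∈ W', ind c T' (c T' x0) x)) := by
          rw [← av_mul_left, ← av_add, ← av_add]
          refine av_congr fun x => ?_
          rw [hf4 x]
          ring
        -- (3)
        have e3 : |av (fun x => (ind c T (c T x0) x - D T x) *
              (g x * ∏ T' ∈ W', ind c T' (c T' x0) x))| ≤ η := by
          refine h1 I V L rk hL c hc (fun T => c T x0) T hTL S hS hTS W' hW'L ?_ g
            (fun x => ind c T (c T x0) x - D T x) η hg hg01 ?_ (hDisc T hTL)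
          · intro T' hT' hsub
            have h2 := (hmemW' T').1 hT'
            exact htop T' h2.2 (ssubset_of_subset_of_ne hsub (Ne.symm h2.1))
          · intro x y hxy
            show ind c T (c T x0) x - D T x = ind c T (c T x0) y - D T y
            rw [ind_dep (hc T hTL) (c T x0) x y hxy, (hD T hTL).1 x y hxy]
        have e3' : η ≤ η * (1 / δ 0) ^ q * Pi := by
          have h2 : ∏ T ∈ (∅ : Finset (Finset I)), d T ≤ (1 / δ 0) ^ L.card *
              ∏ T ∈ W.filter (fun T => rk T ≤ r), d T :=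
            clm_prod L ∅ _ d (δ 0) (hδ 0).1 (hδ 0).2.1 ((filter_subset _ _).trans hW)
              (empty_subset _) hdpos (fun T' hT' _ => (hδm 0 (rk T') (Nat.zero_le _)).trans
                (hd T' (hW (mem_filter.1 hT').1)).1)
          rw [prod_empty, ← hq, ← hPi] at h2
          calc η = η * 1 := (mul_one _).symm
            _ ≤ η * ((1 / δ 0) ^ q * Pi) := mul_le_mul_of_nonneg_left h2 hη
            _ = _ := by ring
        -- (2)
        obtain ⟨W'', hW''⟩ : ∃ W'', W'' = W'.filter (fun T' => rk T' ≤ rk T) := ⟨_, rfl⟩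
        have hmemW'' : ∀ T', T' ∈ W'' ↔ T' ∈ W' ∧ rk T' ≤ rk T := by
          intro T'
          rw [hW'', mem_filter]
        have hW''L : W'' ⊆ L := fun T' h => hW'L ((hmemW'' T').1 h).1
        have hW''c : W''.card ≤ n := by
          rw [hW'']
          exact (card_filter_le _ _).trans hW'c
        have hW''d : ∀ T' ∈ W'', ∀ U ∈ L, U ⊂ T' → U ∈ W'' := by
          intro T' hT' U hU hUT
          have h2 := (hmemW'' T').1 hT'
          refine (hmemW'' U).2 ⟨hW'd T' h2.1 U hU hUT, ?_⟩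
          have := hL.mono U hU T' (hW'L h2.1) hUT
          omega
        have hbelow : W''.filter (fun T' => T' ⊆ T) = below L T := by
          ext U
          rw [mem_filter, mem_below, hmemW'', hmemW']
          constructor
          · rintro ⟨⟨⟨h2, h3⟩, -⟩, h4⟩
            exact ⟨hW h3, ssubset_of_subset_of_ne h4 h2⟩
          · rintro ⟨h2, h3⟩
            exact ⟨⟨⟨h3.ne, hdown T hTW U h2 h3⟩, (hL.mono U h2 T hTL h3).le⟩, h3.1⟩
        have hDT := hD T hTL
        have hdT := hd T hTL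
        have hdT0 := hdpos T hTL
        have habs : ∀ x, 0 ≤ |D T x - d T| ∧ |D T x - d T| ≤ 1 := by
          intro x
          refine ⟨abs_nonneg _, abs_le.2 ⟨?_, ?_⟩⟩
          · have := (hDT.2 x).1; linarith [hdT.2]
          · have := (hDT.2 x).2; linarith
        have e2 : |av (fun x => (D T x - d T) * (g x * ∏ T' ∈ W', ind c T' (c T' x0) x))| ≤
            av (fun x => |D T x - d T| * ∏ T' ∈ W'', ind c T' (c T' x0) x) := by
          refine (abs_av_le _).trans (av_mono fun x => ?_)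
          have h2 : 0 ≤ ∏ T' ∈ W', ind c T' (c T' x0) x := prod_nonneg fun T' _ => hχ0 T' x
          rw [abs_mul, abs_of_nonneg (mul_nonneg (hg01 x).1 h2)]
          refine mul_le_mul_of_nonneg_left ?_ (abs_nonneg _)
          calc g x * ∏ T' ∈ W', ind c T' (c T' x0) x ≤
              1 * ∏ T' ∈ W', ind c T' (c T' x0) x := mul_le_mul_of_nonneg_right (hg01 x).2 h2
            _ = ∏ T' ∈ W', ind c T' (c T' x0) x := one_mul _
            _ ≤ _ := clm_sub W'' W' (fun T' => ind c T' (c T' x0) x)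
                (by rw [hW'']; exact filter_subset _ _) (fun T' => hχ0 T' x)
                (fun T' => hχ1 T' x)
        have e4 := ih (by omega) W'' hW''L hW''c hW''d T hTL (rk T)
          (fun T' h _ => ((hmemW'' T').1 h).2) (fun x => |D T x - d T|)
          (by
            intro x y hxy
            show |D T x - d T| = |D T y - d T|
            rw [hDT.1 x y hxy]) habs
        have hbL : below L T ⊆ L := fun U hU => (mem_below.1 hU).1
        have hbc : (below L T).card ≤ n := by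
          rw [← hbelow]
          exact (card_filter_le _ _).trans hW''c
        have e5 := ih (by omega) (below L T) hbL hbc (by
            intro T' hT' U hU hUT
            rw [mem_below] at hT' ⊢
            exact ⟨hU, hUT.trans hT'.2⟩) ∅ hL.empty (rk T)
          (fun T' h _ => (hL.mono T' (hbL h) T hTL (mem_below.1 h).2).le) (fun _ => 1)
          (fun _ _ _ => rfl) (fun _ => ⟨zero_le_one, le_refl _⟩)
        have hrkb : (below L T).filter (fun T' => rk T' ≤ rk T) = below L T :=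
          filter_true_of_mem fun T' h => (hL.mono T' (hbL h) T hTL (mem_below.1 h).2).le
        have hrkW : W''.filter (fun T' => rk T' ≤ rk T) = W'' :=
          filter_true_of_mem fun T' h => ((hmemW'' T').1 h).2
        have hemp : ∏ T' ∈ (below L T).filter (fun T' => ¬ T' ⊆ ∅), d T' =
            ∏ T' ∈ below L T, d T' := by
          rw [prod_filter]
          refine prod_congr rfl fun T' _ => ?_
          split_ifs with h2
          · have h3 : T' = ∅ := subset_empty.1 h2
            rw [h3, hd0]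
          · rfl
        rw [hrkb, hemp] at e5
        rw [hrkW, hbelow] at e4
        have hbd0 : 0 ≤ ∏ T' ∈ below L T, d T' := prod_nonneg fun T' h => (hdpos T' (hbL h)).le
        have e6 : av (fun x => ∏ U ∈ below L T, ind c U (c U x0) x) ≤
            2 * ∏ T' ∈ below L T, d T' := by
          have h2 : av (fun x : I → V => 1 * ∏ T' ∈ (below L T).filter (fun T' => T' ⊆ ∅),
              ind c T' (c T' x0) x) ≤ 1 := by
            refine av_le_one fun x => ?_
            rw [one_mul]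
            exact prod_le_one (fun T' _ => hχ0 T' x) (fun T' _ => hχ1 T' x)
          have h3 := (abs_le.1 e5).2
          have h4 : av (fun x : I → V => 1 * ∏ T' ∈ below L T, ind c T' (c T' x0) x) =
              av (fun x => ∏ U ∈ below L T, ind c U (c U x0) x) :=
            av_congr fun x => one_mul _
          rw [h4] at h3
          have h5 := mul_le_mul_of_nonneg_left h2 hbd0
          have h6 : κ n (rk T) * ∏ T' ∈ below L T, d T' ≤ 1 * ∏ T' ∈ below L T, d T' :=
            mul_le_mul_of_nonneg_right (by linarith [hκ1 n (rk T) (by omega)]) hbd0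
          linarith
        have hsplit : (∏ T' ∈ W''.filter (fun T' => ¬ T' ⊆ T), d T') *
            ∏ T' ∈ below L T, d T' = ∏ T' ∈ W'', d T' := by
          rw [← hbelow, mul_comm]
          exact prod_filter_mul_prod_filter_not W'' (fun T' => T' ⊆ T) d
        have hnn : 0 ≤ ∏ T' ∈ W''.filter (fun T' => ¬ T' ⊆ T), d T' :=
          prod_nonneg fun T' h => (hdpos T' (hW''L (mem_filter.1 h).1)).le
        have e7 : av (fun x => |D T x - d T| * ∏ T' ∈ W'', ind c T' (c T' x0) x) ≤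
            (2 * γ (rk T) + κ n (rk T)) * ∏ T' ∈ W'', d T' := by
          have h2 := (abs_le.1 e4).2
          have h3 := (hDc T hTL).trans (mul_le_mul_of_nonneg_left e6 (hγ0 (rk T)))
          have h4 := mul_le_mul_of_nonneg_left h3 hnn
          have h5 : (∏ T' ∈ W''.filter (fun T' => ¬ T' ⊆ T), d T') *
              (γ (rk T) * (2 * ∏ T' ∈ below L T, d T')) =
              2 * γ (rk T) * ∏ T' ∈ W'', d T' := by
            rw [← hsplit]
            ring
          rw [h5] at h4
          linarith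
        have e8 : ∏ T' ∈ W'', d T' ≤ (1 / δ (rk T)) ^ q * Pi := by
          rw [hq, hPi]
          refine clm_prod L W'' _ d (δ (rk T)) (hδ _).1 (hδ _).2.1
            ((filter_subset _ _).trans hW) ?_ hdpos ?_
          · intro T' hT'
            have h2 := (hmemW'' T').1 hT'
            exact mem_filter.2 ⟨((hmemW' T').1 h2.1).2, h2.2.trans hTr⟩
          · intro T' hT' hT''
            rw [mem_filter] at hT'
            refine le_trans (hδm (rk T) (rk T') ?_) (hd T' (hW hT'.1)).1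
            by_contra hlt
            by_cases hTT : T' = T
            · rw [hTT] at hlt
              exact hlt (le_refl _)
            · exact hT'' ((hmemW'' T').2 ⟨(hmemW' T').2 ⟨hTT, hT'.1⟩, by omega⟩)
        have e9 : av (fun x => |D T x - d T| * ∏ T' ∈ W'', ind c T' (c T' x0) x) ≤
            (2 * γ (rk T) + κ n (rk T)) * (1 / δ (rk T)) ^ q * Pi := by
          have h2 : 0 ≤ 2 * γ (rk T) + κ n (rk T) := by
            have := hγ0 (rk T); have := hκ0 n (rk T); linarith
          calc _ ≤ (2 * γ (rk T) + κ n (rk T)) * ∏ T' ∈ W'', d T' := e7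
            _ ≤ (2 * γ (rk T) + κ n (rk T)) * ((1 / δ (rk T)) ^ q * Pi) :=
                mul_le_mul_of_nonneg_left e8 h2
            _ = _ := by ring
        have hnum := clm_num2 (γ r) (γ (rk T)) η (1 / δ r) (1 / δ (rk T)) (1 / δ 0) q n (hγ0 _)
          (hγ0 _) hη (hB _) (hB _) (hB _) (hBm 0 _ (Nat.zero_le _))
          (clm_num1 (γ (rk T)) (γ r) (1 / δ (rk T)) (1 / δ r) (q ^ 2) ((n + 1) * q)
            (by nlinarith) (hγ0 _) (hγ0 _) (hB _) (hB _) (hBm _ _ hTr) (hγm _ _ hTr))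
        rw [← hκ, ← hκ] at hnum
        have hnum2 : κ n r + (2 * γ (rk T) + κ n (rk T)) * (1 / δ (rk T)) ^ q +
            η * (1 / δ 0) ^ q ≤ κ (n + 1) r := by
          rw [hκ (n + 1) r]
          exact hnum
        have hfin := mul_le_mul_of_nonneg_right hnum2 hPi0
        have e1' : |d T * av (fun x => g x * ∏ T' ∈ W', ind c T' (c T' x0) x) -
            (∏ T' ∈ W.filter (fun T => ¬ T ⊆ S), d T') *
            av (fun x => g x * ∏ T' ∈ W.filter (fun T => T ⊆ S), ind c T' (c T' x0) x)| ≤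
            κ n r * Pi := by
          have h2 : av (fun x => g x * ∏ T' ∈ W.filter (fun T => T ⊆ S), ind c T' (c T' x0) x) =
              av (fun x => g x * ∏ T' ∈ W'.filter (fun T => T ⊆ S), ind c T' (c T' x0) x) :=
            av_congr fun x => by rw [hf2 x]
          rw [h2, hf1, mul_assoc, ← mul_sub, abs_mul, abs_of_pos hdT0, hPi, hf3,
            mul_left_comm]
          exact mul_le_mul_of_nonneg_left e1 hdT0.le
        rw [hdec, ← hPi]
        have a1 := abs_le.1 e1'
        have a2 := abs_le.1 (e2.trans e9)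
        have a3 := abs_le.1 (e3.trans e3')
        rw [abs_le]
        constructor
        · nlinarith [a1.1, a2.1, a3.1]
        · nlinarith [a1.2, a2.2, a3.2]
  -- conclusion
  have hfinal := P q (le_refl _) L (Subset.refl _) (le_of_eq hq.symm) (fun _ _ U hU _ => hU) ∅
    hL.empty (L.sup rk) (fun T hT _ => le_sup (f := rk) hT) (fun _ => 1) (fun _ _ _ => rfl)
    (fun _ => ⟨zero_le_one, le_refl _⟩)
  have hemp : ∏ T' ∈ L.filter (fun T' => ¬ T' ⊆ ∅), d T' = ∏ T' ∈ L, d T' := by
    rw [prod_filter]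
    refine prod_congr rfl fun T' _ => ?_
    split_ifs with h2
    · have h3 : T' = ∅ := subset_empty.1 h2
      rw [h3, hd0]
    · rfl
  have hone : av (fun x : I → V => 1 * ∏ T' ∈ L.filter (fun T' => T' ⊆ ∅),
      ind c T' (c T' x0) x) = 1 := by
    refine (av_congr fun x => ?_).trans (av_const (I := I) (V := V) 1)
    rw [one_mul]
    refine prod_eq_one fun T' hT' => ?_
    rw [mem_filter] at hT'
    have h3 : T' = ∅ := subset_empty.1 hT'.2
    subst h3
    unfold ind
    rw [if_pos (hc ∅ hL.empty x x0 (fun i hi => absurd hi (notMem_empty i)))]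
  have hrk : L.filter (fun T => rk T ≤ L.sup rk) = L :=
    filter_true_of_mem fun T hT => le_sup (f := rk) hT
  have hone' : av (fun x : I → V => 1 * ∏ T' ∈ L, ind c T' (c T' x0) x) =
      av (fun x => ∏ T ∈ L, ind c T (c T x0) x) := av_congr fun x => one_mul _
  rw [hemp, hone, hrk, hone', mul_one] at hfinal
  have h2 := (abs_le.1 hfinal).1
  have h3 : κ q (L.sup rk) * ∏ T ∈ L, d T ≤ 1 / 2 * ∏ T ∈ L, d T :=
    mul_le_mul_of_nonneg_right (hκ1 q _ (le_refl _)) (prod_nonneg fun T hT => (hdpos T hT).le)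
  linarith

end Pool.Helper16.HR
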